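import Pool.Agent.P.MP_59a3d4_lc.Gadget

set_option autoImplicit false

open Submodule Module

namespace Pool.Agent.P.MP_59a3d4_lc

section pred
variable {α β σ : Type*} [Primcodable α] [Primcodable β] [Primcodable σ]

theorem cp_comp {p : β → Prop} {f : α → β} (hp : ComputablePred p) (hf : Computable f) :
    ComputablePred (fun a => p (f a)) := by
  classical
  exact Computable.computablePred (hp.decide.comp hf)

theorem cp_and {p q : α → Prop} (hp : ComputablePred p) (hq : ComputablePred q) :
    ComputablePred (fun a => p a ∧ q a) := by
  classical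
  exact Computable.computablePred
    ((Primrec.and.to_comp.comp hp.decide hq.decide).of_eq (by simp))

theorem cp_or {p q : α → Prop} (hp : ComputablePred p) (hq : ComputablePred q) :
    ComputablePred (fun a => p a ∨ q a) := by
  classical
  exact Computable.computablePred
    ((Primrec.or.to_comp.comp hp.decide hq.decide).of_eq (by simp))

theorem comp_ite {c : α → Prop} [DecidablePred c] {f g : α → σ} (hc : ComputablePred c)
    (hf : Computable f) (hg : Computable g) : Computable (fun a => if c a then f a else g a) := by
  simpa [Bool.cond_decide] using hc.decide.cond hf hg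

theorem re_exists {p : α → ℕ → Prop} (hp : ComputablePred (fun x : α × ℕ => p x.1 x.2)) :
    REPred (fun a => ∃ n, p a n) := by
  classical
  have h : Partrec (fun a => Nat.rfind fun n => Part.some (decide (p a n))) :=
    Partrec.rfind hp.decide.partrec
  refine h.dom_re.of_eq fun a => ?_
  refine Nat.rfind_dom.trans ?_
  simp

/-- a computably enumerable predicate is a projection of a computable one -/
theorem re_normal {p : α → Prop} (hp : REPred p) :
    ∃ q : α → ℕ → Prop, ComputablePred (fun x : α × ℕ => q x.1 x.2) ∧ ∀ a, p a ↔ ∃ n, q a n := by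
  classical
  obtain ⟨c, hc⟩ := Nat.Partrec.Code.exists_code.1 hp
  refine ⟨fun a n => (Nat.Partrec.Code.evaln n c (Encodable.encode a)).isSome = true, ?_, ?_⟩
  · refine ComputablePred.computable_iff.2 ⟨_, ?_, rfl⟩
    exact (Primrec.option_isSome.comp (Nat.Partrec.Code.primrec_evaln.comp
      ((Primrec.snd.pair (Primrec.const c)).pair (Primrec.encode.comp Primrec.fst)))).to_comp
  · intro a
    have h1 : (c.eval (Encodable.encode a)).Dom ↔ p a := by
      rw [hc]
      simp [Part.assert]
    rw [← h1, Part.dom_iff_mem]
    simp only [Nat.Partrec.Code.evaln_complete, Option.isSome_iff_exists, Option.mem_def]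
    exact exists_comm

theorem mem_list_pred : ComputablePred (fun x : α × List α => x.1 ∈ x.2) := by
  have h : PrimrecRel (fun (L : List α) (b : α) => ∃ a ∈ L, a = b) :=
    PrimrecRel.exists_mem_list Primrec.eq
  exact ((h.comp Primrec.snd Primrec.fst).of_eq (by simp)).computablePred

end pred

variable {F V : Type*} [Field F] [AddCommGroup V] [Module F V] [Primcodable F] [Primcodable V]

omit [Primcodable F] [Primcodable V] in
theorem li_cons (v : V) (l : List V) :
    LinearIndependent F (v :: l).get ↔
      LinearIndependent F l.get ∧ v ∉ span F {x | x ∈ l} := by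
  have h1 : (v :: l).get = Fin.cons (α := fun _ : Fin (l.length + 1) => V) v l.get := by
    funext i
    refine Fin.cases ?_ (fun i => ?_) i <;> rfl
  rw [h1, linearIndependent_finCons, Set.range_list_get]

omit [Primcodable F] [Primcodable V] in
theorem li_nil : LinearIndependent F ([] : List V).get :=
  haveI : IsEmpty (Fin ([] : List V).length) := inferInstanceAs (IsEmpty (Fin 0))
  linearIndependent_empty_type

open Classical in
/-- the list of the `g n` with `n < N` and `I n` -/
noncomputable def lst (g : ℕ → V) (I : ℕ → Prop) (N : ℕ) : List V :=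
  Nat.rec [] (fun n l => if I n then g n :: l else l) N

omit [AddCommGroup V] [Primcodable V] in
theorem mem_lst (g : ℕ → V) (I : ℕ → Prop) (N : ℕ) :
    {x | x ∈ lst g I N} = g '' {n | n < N ∧ I n} := by
  induction N with
  | zero => simp [lst]
  | succ N ih =>
    have e : lst g I (N + 1) = open Classical in if I N then g N :: lst g I N else lst g I N := rfl
    rw [e]
    ext x
    have ih' : x ∈ lst g I N ↔ ∃ n, (n < N ∧ I n) ∧ g n = x := Set.ext_iff.1 ih x
    by_cases h : I N
    · simp only [if_pos h, List.mem_cons, Set.mem_ofPred_eq, Set.mem_image, ih']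
      constructor
      · rintro (rfl | ⟨n, ⟨h1, h2⟩, rfl⟩)
        · exact ⟨N, ⟨by omega, h⟩, rfl⟩
        · exact ⟨n, ⟨by omega, h2⟩, rfl⟩
      · rintro ⟨n, ⟨h1, h2⟩, rfl⟩
        by_cases hn : n = N
        · exact Or.inl (by rw [hn])
        · exact Or.inr ⟨n, ⟨by omega, h2⟩, rfl⟩
    · simp only [if_neg h, Set.mem_ofPred_eq, Set.mem_image, ih']
      constructor
      · rintro ⟨n, ⟨h1, h2⟩, rfl⟩
        exact ⟨n, ⟨by omega, h2⟩, rfl⟩
      · rintro ⟨n, ⟨h1, h2⟩, rfl⟩
        by_cases hn : n = N
        · exact absurd (hn ▸ h2) h
        · exact ⟨n, ⟨by omega, h2⟩, rfl⟩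

omit [Primcodable F] [Primcodable V] in
theorem li_lst {g : ℕ → V} (hg : LinearIndependent F g) (I : ℕ → Prop) (N : ℕ) :
    LinearIndependent F (lst g I N).get := by
  induction N with
  | zero => exact li_nil
  | succ N ih =>
    have e : lst g I (N + 1) = open Classical in if I N then g N :: lst g I N else lst g I N := rfl
    rw [e]
    by_cases h : I N
    · rw [if_pos h, li_cons, mem_lst]
      exact ⟨ih, hg.notMem_span_image (by simp)⟩
    · rw [if_neg h]; exact ih

omit [AddCommGroup V] in
theorem computable_lst {g : ℕ → V} (hg : Computable g) {I : ℕ → Prop} (hI : ComputablePred I) :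
    Computable (lst g I) := by
  classical
  refine Computable.nat_rec (f := fun N : ℕ => N) (g := fun _ => ([] : List V))
    (h := fun _ (x : ℕ × List V) => if I x.1 then g x.1 :: x.2 else x.2)
    Computable.id (Computable.const _) ?_
  refine comp_ite (cp_comp hI (Computable.fst.comp Computable.snd)) ?_
    (Computable.snd.comp Computable.snd)
  exact Computable.list_cons.comp (hg.comp (Computable.fst.comp Computable.snd))
    (Computable.snd.comp Computable.snd)

theorem computable_mem_span_lst (h : IsVInfinity F V) {g : ℕ → V} (hg : Computable g)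
    (hli : LinearIndependent F g) {I : ℕ → Prop} (hI : ComputablePred I) :
    ComputablePred (fun x : V × ℕ => x.1 ∈ span F (g '' {n | n < x.2 ∧ I n})) := by
  refine (cp_comp h.dependence
    (Computable.list_cons.comp Computable.fst ((computable_lst hg hI).comp Computable.snd))).of_eq
    fun x => ?_
  rw [li_cons, mem_lst]
  simp [li_lst hli]

omit [Primcodable F] [Primcodable V] in
theorem exists_bound (e : Basis ℕ F V) (v : V) :
    ∃ N, v ∈ span F (e '' {n | n < N ∧ True}) := by
  obtain ⟨N, hN⟩ := (e.repr v).support.bddAbove
  refine ⟨N + 1, e.mem_span_image.2 fun n hn => ⟨Nat.lt_succ_of_le (hN hn), trivial⟩⟩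

theorem cp_true {α : Type*} [Primcodable α] : ComputablePred (fun _ : α => True) :=
  Computable.computablePred (Computable.const _)

open Classical in
theorem computable_bound (h : IsVInfinity F V) (e : Basis ℕ F V) (he : Computable e) :
    Computable (fun v => Nat.find (exists_bound e v)) :=
  Computable.find (computable_mem_span_lst h he e.linearIndependent cp_true) _

/-- the span of a computable part of a computably listed basis is decidable -/
theorem computable_mem_span (h : IsVInfinity F V) (e : Basis ℕ F V) (he : Computable e)
    {I : ℕ → Prop} (hI : ComputablePred I) :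
    ComputablePred (fun v => v ∈ span F (e '' {n | I n})) := by
  classical
  refine (cp_comp (computable_mem_span_lst h he e.linearIndependent hI)
    (Computable.id.pair (computable_bound h e he))).of_eq fun v => ?_
  have hv := Nat.find_spec (exists_bound e v)
  simp only [id, e.mem_span_image] at hv ⊢
  constructor
  · exact fun h1 n hn => (h1 hn).2
  · exact fun h1 n hn => ⟨(hv hn).1, h1 hn⟩

/-- a computably listed basis is decidable -/
theorem computable_mem_range (h : IsVInfinity F V) (e : Basis ℕ F V) (he : Computable e) :
    ComputablePred (fun v => v ∈ Set.range e) := by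
  classical
  refine (cp_comp mem_list_pred
    (Computable.id.pair ((computable_lst he cp_true).comp (computable_bound h e he)))).of_eq
    fun v => ?_
  have hv := Nat.find_spec (exists_bound e v)
  have h1 := Set.ext_iff.1 (mem_lst e (fun _ => True) (Nat.find (exists_bound e v))) v
  simp only [Set.mem_ofPred_eq] at h1
  simp only [id]
  rw [h1]
  constructor
  · rintro ⟨n, _, rfl⟩; exact ⟨n, rfl⟩
  · rintro ⟨n, rfl⟩
    refine ⟨n, ?_, rfl⟩
    rw [e.mem_span_image] at hv
    apply hv
    simp

omit [Primcodable F] [Primcodable V] in
theorem linearIndependent_of_notMem_lt {g : ℕ → V}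
    (hg : ∀ n, g n ∉ span F (g '' {m | m < n})) : LinearIndependent F g := by
  classical
  rw [linearIndependent_iff']
  intro s
  induction s using Finset.induction_on_max with
  | empty => simp
  | insert a s ha ih =>
    intro c hc
    have has : a ∉ s := fun h => lt_irrefl _ (ha a h)
    rw [Finset.sum_insert has] at hc
    have hca : c a = 0 := by
      by_contra hca
      apply hg a
      have : g a = (c a)⁻¹ • (-∑ i ∈ s, c i • g i) := by
        rw [← eq_neg_of_add_eq_zero_left hc, smul_smul, inv_mul_cancel₀ hca, one_smul]
      rw [this]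
      exact smul_mem _ _ (neg_mem (sum_mem fun i hi => smul_mem _ _ (subset_span ⟨i, ha i hi, rfl⟩)))
    rw [hca, zero_smul, zero_add] at hc
    intro i hi
    rcases Finset.mem_insert.1 hi with rfl | hi
    · exact hca
    · exact ih c hc i hi

/-- a computable space with a dependence algorithm has a computably listed basis -/
theorem exists_computable_basis (h : IsVInfinity F V) : ∃ e : Basis ℕ F V, Computable e := by
  classical
  let f : ℕ → V := fun m => (Encodable.decode (α := V) m).getD 0
  have hf : Computable f := Computable.option_getD Computable.decode (Computable.const 0)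
  have hfs : ∀ v, f (Encodable.encode v) = v := fun v => by simp [f]
  let P : List V → ℕ → Prop := fun l m =>
    ¬ LinearIndependent F l.get ∨ ¬ ¬ LinearIndependent F (f m :: l).get
  have hP : ComputablePred (fun x : List V × ℕ => P x.1 x.2) :=
    cp_or (cp_comp (f := fun x : List V × ℕ => x.1) h.dependence Computable.fst)
      (cp_comp (f := fun x : List V × ℕ => f x.2 :: x.1) h.dependence
        (Computable.list_cons.comp (hf.comp Computable.snd) Computable.fst)).not
  have hex : ∀ l, ∃ m, P l m := by
    intro l
    by_cases hl : LinearIndependent F l.get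
    · have : ∃ v, v ∉ span F {x | x ∈ l} := by
        by_contra hc
        push Not at hc
        have hfin : Module.Finite F V :=
          ⟨Submodule.fg_def.2 ⟨_, l.finite_toSet, eq_top_iff.2 fun v _ => hc v⟩⟩
        exact absurd h.rank_eq (Module.rank_lt_aleph0 F V).ne
      obtain ⟨v, hv⟩ := this
      exact ⟨Encodable.encode v, Or.inr (not_not.2 ((li_cons _ _).2 ⟨hl, by rwa [hfs]⟩))⟩
    · exact ⟨0, Or.inl hl⟩
  let nx : List V → V := fun l => f (Nat.find (hex l))
  have hnx : Computable nx := hf.comp (Computable.find hP hex)
  let M : ℕ → List V := fun N => Nat.rec [] (fun _ l => nx l :: l) N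
  have hM : Computable M :=
    Computable.nat_rec (f := fun N : ℕ => N) (g := fun _ => ([] : List V))
      (h := fun _ (x : ℕ × List V) => nx x.2 :: x.2) Computable.id (Computable.const _)
      (Computable.list_cons.comp (hnx.comp (Computable.snd.comp Computable.snd))
        (Computable.snd.comp Computable.snd))
  let g : ℕ → V := fun n => nx (M n)
  have hg : Computable g := hnx.comp hM
  have hMs : ∀ n, M (n + 1) = g n :: M n := fun n => rfl
  have hli : ∀ n, LinearIndependent F (M n).get := by
    intro n
    induction n with
    | zero => exact li_nil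
    | succ n ih => exact not_not.1 ((Nat.find_spec (hex (M n))).resolve_left (not_not.2 ih))
  have hmem : ∀ n, {x | x ∈ M n} = g '' {m | m < n} := by
    intro n
    induction n with
    | zero => simp [M]
    | succ n ih =>
      rw [hMs]
      have : {m | m < n + 1} = insert n {m | m < n} := by
        ext m; simp only [Set.mem_ofPred_eq, Set.mem_insert_iff]; omega
      rw [this, Set.image_insert_eq, ← ih]
      ext x; simp
  have hgli : LinearIndependent F g := by
    refine linearIndependent_of_notMem_lt fun n => ?_
    rw [← hmem]
    exact ((li_cons _ _).1 (hli (n + 1))).2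
  have hsp : ⊤ ≤ span F (Set.range g) := by
    intro v _
    by_contra hv
    have hle : ∀ n, Nat.find (hex (M n)) ≤ Encodable.encode v := by
      intro n
      refine Nat.find_min' _ (Or.inr (not_not.2 ((li_cons _ _).2 ⟨hli n, ?_⟩)))
      rw [hfs, hmem]
      exact fun hh => hv (span_mono (Set.image_subset_range _ _) hh)
    have hfin : (Set.range g).Finite := by
      refine ((Set.finite_Iic (Encodable.encode v)).image f).subset ?_
      rintro _ ⟨n, rfl⟩
      exact ⟨_, hle n, rfl⟩
    exact Set.infinite_range_of_injective hgli.injective hfin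
  exact ⟨Basis.mk hgli hsp, by rw [Basis.coe_mk]; exact hg⟩

theorem primrec_int_succ : Primrec (fun k : ℤ => k + 1) := by
  rw [← Primrec.encode_iff]
  have h : Primrec (fun n : ℕ => if n % 2 = 0 then n + 2 else if n = 1 then 0 else n - 2) :=
    Primrec.ite (Primrec.eq.comp (Primrec.nat_mod.comp Primrec.id (Primrec.const 2))
      (Primrec.const 0)) (Primrec.nat_add.comp Primrec.id (Primrec.const 2))
      (Primrec.ite (Primrec.eq.comp Primrec.id (Primrec.const 1)) (Primrec.const 0)
        (Primrec.nat_sub.comp Primrec.id (Primrec.const 2)))
  refine (h.comp Primrec.encode).of_eq fun k => ?_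
  have e1 : ∀ n : ℕ, Encodable.encode (Int.ofNat n) = 2 * n := fun n => by
    change Equiv.natSumNatEquivNat (Sum.inl n) = _
    simp
  have e2 : ∀ n : ℕ, Encodable.encode (Int.negSucc n) = 2 * n + 1 := fun n => by
    change Equiv.intEquivNat _ = _
    simp [Equiv.intEquivNat, Equiv.intEquivNatSumNat]
  rcases k with n | (_ | n)
  · have : Int.ofNat n + 1 = Int.ofNat (n + 1) := rfl
    rw [this, e1, e1, if_pos (by omega)]; omega
  · have : Int.negSucc 0 + 1 = Int.ofNat 0 := rfl
    rw [this, e1, e2]; simp
  · have : Int.negSucc (n + 1) + 1 = Int.negSucc n := rfl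
    rw [this, e2, e2, if_neg (by omega), if_neg (by omega)]; omega

end Pool.Agent.P.MP_59a3d4_lc
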