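import Mathlib

set_option autoImplicit false

namespace Pool.Agent.P.MP_59a3d4_lc

/-- The set `B` is a basis of the `F`-vector space `R`: linearly independent and spanning. -/
def IsBasisSet (F : Type*) {R : Type*} [Field F] [AddCommGroup R] [Module F R] (B : Set R) : Prop :=
  LinearIndepOn F id B ∧ Submodule.span F B = ⊤

/-- `B = B₁ ⊔ B₂` is a good splitting of `B` with respect to `(V₁, V₂)`:
a partition of `B` with `V₁ ⊕ sp B₁ = R = V₂ ⊕ sp B₂`. -/
def IsGoodSplitting {F R : Type*} [Field F] [AddCommGroup R] [Module F R]
    (V₁ V₂ : Submodule F R) (B B₁ B₂ : Set R) : Prop :=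
  B₁ ∪ B₂ = B ∧ Disjoint B₁ B₂ ∧
    IsCompl V₁ (Submodule.span F B₁) ∧ IsCompl V₂ (Submodule.span F B₂)

/-- `V` is a computable vector space of countably infinite dimension over the computable field `F`,
with a dependence algorithm. -/
structure IsVInfinity (F V : Type*) [Field F] [AddCommGroup V] [Module F V]
    [Primcodable F] [Primcodable V] : Prop where
  field_add : Computable₂ (fun a b : F => a + b)
  field_mul : Computable₂ (fun a b : F => a * b)
  add : Computable₂ (fun u v : V => u + v)
  smul : Computable₂ (fun (a : F) (v : V) => a • v)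
  dependence : ComputablePred (fun l : List V => ¬ LinearIndependent F l.get)
  rank_eq : Module.rank F V = Cardinal.aleph0

end Pool.Agent.P.MP_59a3d4_lc
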