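import Pool.Agent.P.MP_59a3d4_lc.Defs

set_option autoImplicit false

open Submodule Module

namespace Pool.Agent.P.MP_59a3d4_lc

variable {F R κ : Type*} [Field F] [AddCommGroup R] [Module F R]

/-- index type: `inl` = the vectors `x`, `inr` = the vectors `y` -/
abbrev Idx (κ : Type*) := (κ × ℤ) ⊕ (κ × ℤ)

section general

theorem disjoint_of_duals {ι : Type*} (W : Submodule F R) (g : ι → R) (lam : ι → R →ₗ[F] F)
    (hW : ∀ i, ∀ w ∈ W, lam i w = 0) (hd : ∀ i, lam i (g i) ≠ 0)
    (ho : ∀ i j, i ≠ j → lam i (g j) = 0) : Disjoint W (span F (Set.range g)) := by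
  classical
  rw [Submodule.disjoint_def]
  intro v hv hv'
  obtain ⟨a, rfl⟩ := Finsupp.mem_span_range_iff_exists_finsupp.1 hv'
  have : a = 0 := by
    ext i
    have h := hW i _ hv
    rw [map_finsuppSum, Finsupp.sum, Finset.sum_eq_single i] at h
    · simpa [hd i] using h
    · intro j _ hj
      simp [ho i j (Ne.symm hj)]
    · intro hi
      simp [Finsupp.notMem_support_iff.1 hi]
  simp [this]

theorem linearIndependent_of_duals {ι : Type*} (g : ι → R) (lam : ι → R →ₗ[F] F)
    (hd : ∀ i, lam i (g i) ≠ 0) (ho : ∀ i j, i ≠ j → lam i (g j) = 0) :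
    LinearIndependent F g := by
  classical
  rw [linearIndependent_iff']
  intro s a h i hi
  have h' := congrArg (lam i) h
  rw [map_sum, Finset.sum_eq_single i] at h'
  · simpa [hd i] using h'
  · intro j _ hj
    simp [ho i j (Ne.symm hj)]
  · intro hi'; exact absurd hi hi'

/-- a functional killing `W` and a set `S` with `W ⊔ span S = ⊤` is zero -/
theorem functional_eq_zero {W : Submodule F R} {S : Set R} (h : IsCompl W (span F S))
    (lam : R →ₗ[F] F) (hW : ∀ w ∈ W, lam w = 0) (hS : ∀ v ∈ S, lam v = 0) (v : R) :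
    lam v = 0 := by
  have h1 : W ≤ LinearMap.ker lam := fun w hw => hW w hw
  have h2 : span F S ≤ LinearMap.ker lam := span_le.2 fun w hw => hS w hw
  have : (⊤ : Submodule F R) ≤ LinearMap.ker lam := by
    rw [← h.sup_eq_top]; exact sup_le h1 h2
  exact this (mem_top (x := v))

end general

variable (E : Basis (Idx κ) F R) (A : κ × ℤ → Prop)

/-- the first summand, spanned by the `x` -/
def VX : Submodule F R := span F (E '' Set.range Sum.inl)
/-- the second summand, spanned by the `y` -/
def VY : Submodule F R := span F (E '' Set.range Sum.inr)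

open Classical in
/-- the vector `d` -/
noncomputable def dv (p : κ × ℤ) : R :=
  if A p then E (.inl p) - E (.inl (p.1, p.2 + 1)) + E (.inr p) else E (.inl (p.1, p.2 + 1))

open Classical in
/-- the vector `c` -/
noncomputable def cv (p : κ × ℤ) : R :=
  if A p then E (.inl p) + E (.inr p) else E (.inr p)

/-- the second basis -/
noncomputable def bv : Idx κ → R := Sum.elim (dv E A) (cv E A)

theorem isCompl_VX_VY : IsCompl (VX E) (VY E) := by
  constructor
  · exact E.linearIndependent.disjoint_span_image Set.isCompl_range_inl_range_inr.disjoint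
  · rw [codisjoint_iff, VX, VY, ← span_union, ← Set.image_union, Set.range_inl_union_range_inr,
      Set.image_univ, E.span_eq]

open Classical in
/-- the functional that is `1` on the `x` with index in `S`, and `0` on the other basis vectors -/
noncomputable def fx (S : κ × ℤ → Prop) : R →ₗ[F] F :=
  E.constr F (Sum.elim (fun p => if S p then 1 else 0) (fun _ => 0))

open Classical in
/-- the coordinate functional of `y` -/
noncomputable def fy (q : κ × ℤ) : R →ₗ[F] F :=
  E.constr F (Sum.elim (fun _ => 0) (fun p => if p = q then 1 else 0))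

open Classical in
@[simp] theorem fx_inl (S : κ × ℤ → Prop) (p : κ × ℤ) :
    fx E S (E (.inl p)) = if S p then 1 else 0 := by simp [fx]
@[simp] theorem fx_inr (S : κ × ℤ → Prop) (p : κ × ℤ) : fx E S (E (.inr p)) = 0 := by simp [fx]
@[simp] theorem fy_inl (q p : κ × ℤ) : fy E q (E (.inl p)) = 0 := by simp [fy]
open Classical in
@[simp] theorem fy_inr (q p : κ × ℤ) : fy E q (E (.inr p)) = if p = q then 1 else 0 := by simp [fy]

theorem fx_VY (S : κ × ℤ → Prop) : ∀ w ∈ VY E, fx E S w = 0 := by
  intro w hw
  have : VY E ≤ LinearMap.ker (fx E S) := by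
    refine span_le.2 ?_
    rintro _ ⟨_, ⟨p, rfl⟩, rfl⟩
    simp
  exact this hw

theorem fy_VX (q : κ × ℤ) : ∀ w ∈ VX E, fy E q w = 0 := by
  intro w hw
  have : VX E ≤ LinearMap.ker (fy E q) := by
    refine span_le.2 ?_
    rintro _ ⟨_, ⟨p, rfl⟩, rfl⟩
    simp
  exact this hw

theorem inl_mem_VX (p : κ × ℤ) : E (.inl p) ∈ VX E := subset_span ⟨_, ⟨p, rfl⟩, rfl⟩
theorem inr_mem_VY (p : κ × ℤ) : E (.inr p) ∈ VY E := subset_span ⟨_, ⟨p, rfl⟩, rfl⟩

open Classical in
theorem fy_cv (q p : κ × ℤ) : fy E q (cv E A p) = if p = q then 1 else 0 := by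
  unfold cv; split_ifs <;> simp_all

open Classical in
theorem fy_dv (q p : κ × ℤ) : fy E q (dv E A p) = if p = q ∧ A p then 1 else 0 := by
  unfold dv
  by_cases h : A p <;> simp [h]

open Classical in
theorem fx_cv (S : κ × ℤ → Prop) (p : κ × ℤ) :
    fx E S (cv E A p) = if A p ∧ S p then 1 else 0 := by
  unfold cv; split_ifs <;> simp_all

open Classical in
theorem fx_dv (S : κ × ℤ → Prop) (p : κ × ℤ) :
    fx E S (dv E A p) = if A p then
      ((if S p then 1 else 0) - (if S (p.1, p.2 + 1) then 1 else 0))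
      else (if S (p.1, p.2 + 1) then 1 else 0) := by
  unfold dv; split_ifs <;> simp_all

theorem span_bv : span F (Set.range (bv E A)) = ⊤ := by
  have hx : ∀ p, E (.inl p) ∈ span F (Set.range (bv E A)) := by
    rintro ⟨a, k⟩
    have hd : dv E A (a, k - 1) ∈ span F (Set.range (bv E A)) := subset_span ⟨.inl _, rfl⟩
    have hc : cv E A (a, k - 1) ∈ span F (Set.range (bv E A)) := subset_span ⟨.inr _, rfl⟩
    by_cases h : A (a, k - 1)
    · have := sub_mem hc hd
      simpa [dv, cv, h] using this
    · simpa [dv, h] using hd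
  have hy : ∀ p, E (.inr p) ∈ span F (Set.range (bv E A)) := by
    intro p
    have hc : cv E A p ∈ span F (Set.range (bv E A)) := subset_span ⟨.inr _, rfl⟩
    by_cases h : A p
    · have := sub_mem hc (hx p)
      simpa [cv, h] using this
    · simpa [cv, h] using hc
  rw [eq_top_iff, ← E.span_eq, span_le]
  rintro _ ⟨(p | p), rfl⟩
  · exact hx p
  · exact hy p

open Classical in
/-- dual functional of `dv` -/
noncomputable def dualD (q : κ × ℤ) : R →ₗ[F] F :=
  fx E (fun p => p = (q.1, q.2 + 1)) - (if A (q.1, q.2 + 1) then fy E (q.1, q.2 + 1) else 0)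

theorem dualD_cv (q p : κ × ℤ) : dualD E A q (cv E A p) = 0 := by
  classical
  unfold dualD
  split_ifs with h
  · simp only [LinearMap.sub_apply, fx_cv, fy_cv]
    by_cases hp : p = (q.1, q.2 + 1)
    · simp [hp, h]
    · simp [hp]
  · simp only [LinearMap.sub_apply, fx_cv]
    by_cases hp : p = (q.1, q.2 + 1)
    · simp [hp, h]
    · simp [hp]

open Classical in
theorem dualD_dv (q p : κ × ℤ) :
    dualD E A q (dv E A p) = if p = q then (if A q then -1 else 1) else 0 := by
  obtain ⟨a, k⟩ := q
  obtain ⟨b, j⟩ := p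
  unfold dualD
  simp only [LinearMap.sub_apply, fx_dv, Prod.mk.injEq, add_left_inj]
  by_cases hab : b = a
  · subst hab
    by_cases h1 : j = k
    · subst h1
      by_cases h2 : A (b, j + 1) <;> by_cases h3 : A (b, j) <;> simp [h2, h3, fy_dv]
    · by_cases h4 : j = k + 1
      · subst h4
        by_cases h2 : A (b, k + 1) <;> simp [h2, fy_dv]
      · by_cases h2 : A (b, k + 1) <;> by_cases h3 : A (b, j) <;> simp [h1, h2, h3, h4, fy_dv]
  · by_cases h2 : A (a, k + 1) <;> by_cases h3 : A (b, j) <;> simp [hab, h2, h3, fy_dv]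

theorem linearIndependent_bv : LinearIndependent F (bv E A) := by
  classical
  refine linearIndependent_of_duals (bv E A)
    (Sum.elim (dualD E A) (fun q => fy E q + (if A q then dualD E A q else 0))) ?_ ?_
  · rintro (q | q)
    · simp only [Sum.elim_inl, bv, dualD_dv]
      by_cases h : A q <;> simp [h]
    · by_cases h : A q <;> simp [bv, h, fy_cv, dualD_cv]
  · rintro (q | q) (p | p) hne
    · have : p ≠ q := fun h => hne (by rw [h])
      simp [bv, dualD_dv, this]
    · simp [bv, dualD_cv]
    · by_cases h : A q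
      · by_cases hp : p = q
        · subst hp; simp [bv, h, fy_dv, dualD_dv]
        · simp [bv, h, hp, fy_dv, dualD_dv]
      · by_cases hp : p = q
        · subst hp; simp [bv, h, fy_dv]
        · simp [bv, h, hp, fy_dv]
    · have : p ≠ q := fun h => hne (by rw [h])
      by_cases h : A q <;> simp [bv, h, fy_cv, dualD_cv, this]

theorem isBasisSet_bv : IsBasisSet F (Set.range (bv E A)) :=
  ⟨(linearIndependent_bv E A).linearIndepOn_id, span_bv E A⟩

variable {E A}

/-- In a good splitting, if an active `c` lies in `B₂` then the matching `d` does not. -/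
theorem dv_notMem {B₁ B₂ : Set R}
    (h : IsGoodSplitting (VX E) (VY E) (Set.range (bv E A)) B₁ B₂) {q : κ × ℤ}
    (hc : cv E A q ∈ B₂) : dv E A q ∈ B₁ ∧ A q := by
  classical
  obtain ⟨hU, hD, h1, _⟩ := h
  by_contra hd
  have := functional_eq_zero h1 (fy E q) (fy_VX E q) ?_ (E (.inr q))
  · simp at this
  · intro v hv
    have hv' : v ∈ Set.range (bv E A) := hU ▸ Or.inl hv
    obtain ⟨(p | p), rfl⟩ := hv'
    · simp only [bv, Sum.elim_inl, fy_dv] at hv ⊢
      split_ifs with hh
      · exact absurd ⟨hh.1 ▸ hv, hh.1 ▸ hh.2⟩ hd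
      · rfl
    · simp only [bv, Sum.elim_inr, fy_cv] at hv ⊢
      split_ifs with hh
      · exact absurd hc (Set.disjoint_left.1 hD (hh ▸ hv))
      · rfl

/-- the set of positions to the right of `q` joined to `q.2 + 1` through active positions -/
def rightSet (A : κ × ℤ → Prop) (q p : κ × ℤ) : Prop :=
  p.1 = q.1 ∧ q.2 < p.2 ∧ ∀ i, q.2 < i → i < p.2 → A (q.1, i)

open Classical in
theorem fx_right_dv (q p : κ × ℤ) :
    fx E (rightSet A q) (dv E A p) = if p = q then (if A q then -1 else 1) else 0 := by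
  obtain ⟨a, k⟩ := q
  obtain ⟨b, j⟩ := p
  rw [fx_dv]
  by_cases hpq : (b, j) = (a, k)
  · obtain ⟨rfl, rfl⟩ := Prod.mk.inj hpq
    have h1 : ¬ rightSet A (b, j) (b, j) := fun h => lt_irrefl _ h.2.1
    have h2 : rightSet A (b, j) (b, j + 1) := ⟨rfl, by simp, fun i h1 h2 => by simp at h1 h2; omega⟩
    simp [h1, h2]
  · rw [if_neg hpq]
    by_cases hA : A (b, j)
    · rw [if_pos hA]
      have : rightSet A (a, k) (b, j) ↔ rightSet A (a, k) (b, j + 1) := by
        constructor
        · rintro ⟨h1, h2, h3⟩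
          simp only at h1 h2 h3
          subst h1
          refine ⟨rfl, by simp; omega, fun i hi hi' => ?_⟩
          simp only at hi hi' ⊢
          by_cases hij : i = j
          · exact hij ▸ hA
          · exact h3 i hi (by omega)
        · rintro ⟨h1, h2, h3⟩
          simp only at h1 h2 h3
          subst h1
          have : j ≠ k := fun h => hpq (by rw [h])
          exact ⟨rfl, by simp; omega, fun i hi hi' => h3 i hi (by simp at hi'; omega)⟩
      by_cases h : rightSet A (a, k) (b, j)
      · simp [h, this.1 h]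
      · simp [h, mt this.2 h]
    · rw [if_neg hA, if_neg]
      rintro ⟨h1, h2, h3⟩
      simp only at h1 h2 h3
      subst h1
      have : j ≠ k := fun h => hpq (by rw [h])
      exact hA (h3 j (by omega) (by omega))

theorem exists_next {B₁ B₂ : Set R}
    (h : IsGoodSplitting (VX E) (VY E) (Set.range (bv E A)) B₁ B₂) {q : κ × ℤ}
    (hc : cv E A q ∈ B₂) : ∃ p, rightSet A q p ∧ cv E A p ∈ B₂ := by
  classical
  have hd := dv_notMem h hc
  obtain ⟨hU, hD, _, h2⟩ := h
  by_contra hne
  push Not at hne
  have := functional_eq_zero h2 (fx E (rightSet A q)) (fx_VY E _) ?_ (E (.inl (q.1, q.2 + 1)))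
  · have h2 : rightSet A q (q.1, q.2 + 1) := ⟨rfl, by simp, fun i h1 h2 => by simp at h2; omega⟩
    simp [h2] at this
  · intro v hv
    have hv' : v ∈ Set.range (bv E A) := hU ▸ Or.inr hv
    obtain ⟨(p | p), rfl⟩ := hv'
    · simp only [bv, Sum.elim_inl, fx_right_dv] at hv ⊢
      rw [if_neg]
      rintro rfl
      exact Set.disjoint_left.1 hD hd.1 hv
    · simp only [bv, Sum.elim_inr, fx_cv] at hv ⊢
      rw [if_neg]
      exact fun hh => hne p hh.2 hv

/-- no `c` to the left of an inactive position lies in `B₂` -/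
theorem cv_notMem {B₁ B₂ : Set R}
    (h : IsGoodSplitting (VX E) (VY E) (Set.range (bv E A)) B₁ B₂) {a : κ} {s : ℤ}
    (hs : ¬ A (a, s)) : ∀ (n : ℕ) (k : ℤ), k < s → s - k ≤ n → cv E A (a, k) ∉ B₂ := by
  intro n
  induction n with
  | zero => intro k h1 h2; omega
  | succ n ih =>
    intro k h1 h2 hc
    obtain ⟨⟨b, j⟩, ⟨h3, h4, h5⟩, hc'⟩ := exists_next h hc
    simp only at h3 h4 h5
    subst h3
    have hj : j < s := by
      by_contra hj
      by_cases hjs : j = s
      · exact hs (hjs ▸ (dv_notMem h hc').2)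
      · exact hs (h5 s h1 (by omega))
    exact ih j hj (by push_cast at h2; omega) hc'

/-- if everything to the left of `t` is active, some `c` lies in `B₂` -/
theorem exists_cv_mem {B₁ B₂ : Set R}
    (h : IsGoodSplitting (VX E) (VY E) (Set.range (bv E A)) B₁ B₂) {a : κ} {t : ℤ}
    (ht : ∀ i < t, A (a, i)) :
    ∃ j, (∀ i < j, A (a, i)) ∧ A (a, j) ∧ cv E A (a, j) ∈ B₂ := by
  classical
  obtain ⟨hU, hD, _, h2⟩ := h
  by_contra hne
  push Not at hne
  have := functional_eq_zero h2 (fx E (fun p => p.1 = a ∧ ∀ i < p.2, A (a, i))) (fx_VY E _) ?_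
    (E (.inl (a, t)))
  · rw [fx_inl, if_pos ⟨rfl, ht⟩] at this
    exact one_ne_zero this
  · intro v hv
    have hv' : v ∈ Set.range (bv E A) := hU ▸ Or.inr hv
    obtain ⟨(⟨b, j⟩ | ⟨b, j⟩), rfl⟩ := hv'
    · simp only [bv, Sum.elim_inl, fx_dv] at hv ⊢
      by_cases hb : b = a
      · subst hb
        by_cases hA : A (b, j)
        · have : (∀ i < j, A (b, i)) ↔ (∀ i < j + 1, A (b, i)) := by
            constructor
            · intro h i hi
              by_cases hij : i = j
              · exact hij ▸ hA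
              · exact h i (by omega)
            · intro h i hi
              exact h i (by omega)
          by_cases hh : ∀ i < j, A (b, i)
          · rw [if_pos hA, if_pos ⟨rfl, hh⟩, if_pos ⟨rfl, this.1 hh⟩, sub_self]
          · rw [if_pos hA, if_neg (fun h => hh h.2), if_neg (fun h => hh (this.2 h.2)), sub_self]
        · rw [if_neg hA, if_neg]
          exact fun hh => hA (hh.2 j (by omega))
      · simp [hb]
    · simp only [bv, Sum.elim_inr, fx_cv] at hv ⊢
      rw [if_neg]
      rintro ⟨h1, rfl, h3⟩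
      exact hne j h3 h1 hv

/-- no good splitting when exactly the negative positions are active -/
theorem no_good_splitting (E : Basis (Idx κ) F R) (a : κ) :
    ¬ ∃ B₁ B₂, IsGoodSplitting (VX E) (VY E) (Set.range (bv E (fun p => p.2 < 0))) B₁ B₂ := by
  rintro ⟨B₁, B₂, h⟩
  obtain ⟨j, _, hj, hc⟩ := exists_cv_mem h (a := a) (t := 0) (fun i hi => hi)
  exact cv_notMem h (a := a) (s := 0) (lt_irrefl _) (-j).toNat j hj (by omega) hc

open Classical in
/-- a good splitting exists if every chain is fully active or has inactive positions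
arbitrarily far to the left -/
theorem exists_good_splitting (E : Basis (Idx κ) F R) (A : κ × ℤ → Prop)
    (hA : ∀ a, (∀ k, A (a, k)) ∨ ∀ k, ∃ i < k, ¬ A (a, i)) :
    ∃ B₁ B₂, IsGoodSplitting (VX E) (VY E) (Set.range (bv E A)) B₁ B₂ := by
  let g₁ : κ × ℤ → R := fun p => if ∀ k, A (p.1, k) then dv E A p else cv E A p
  let g₂ : κ × ℤ → R := fun p => if ∀ k, A (p.1, k) then cv E A p else dv E A p
  have hinj := (linearIndependent_bv E A).injective
  have hfy : ∀ q p, fy E q (g₁ p) = if p = q then 1 else 0 := by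
    intro q p
    by_cases h : ∀ k, A (p.1, k)
    · have hp : A p := h p.2
      simp only [g₁, if_pos h, fy_dv, hp, and_true]
    · simp only [g₁, if_neg h, fy_cv]
  refine ⟨Set.range g₁, Set.range g₂, ?_, ?_, ⟨?_, ?_⟩, ⟨?_, ?_⟩⟩
  · ext v
    constructor
    · rintro (⟨p, rfl⟩ | ⟨p, rfl⟩)
      · by_cases h : ∀ k, A (p.1, k)
        · exact ⟨.inl p, by simp only [g₁, if_pos h]; rfl⟩
        · exact ⟨.inr p, by simp only [g₁, if_neg h]; rfl⟩
      · by_cases h : ∀ k, A (p.1, k)
        · exact ⟨.inr p, by simp only [g₂, if_pos h]; rfl⟩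
        · exact ⟨.inl p, by simp only [g₂, if_neg h]; rfl⟩
    · rintro ⟨(p | p), rfl⟩
      · by_cases h : ∀ k, A (p.1, k)
        · exact Or.inl ⟨p, by simp only [g₁, if_pos h]; rfl⟩
        · exact Or.inr ⟨p, by simp only [g₂, if_neg h]; rfl⟩
      · by_cases h : ∀ k, A (p.1, k)
        · exact Or.inr ⟨p, by simp only [g₂, if_pos h]; rfl⟩
        · exact Or.inl ⟨p, by simp only [g₁, if_neg h]; rfl⟩
  · rw [Set.disjoint_left]
    rintro _ ⟨p, rfl⟩ ⟨q, hq⟩
    by_cases h : ∀ k, A (p.1, k) <;> by_cases h' : ∀ k, A (q.1, k)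
    · simp only [g₁, g₂, if_pos h, if_pos h'] at hq
      exact absurd (hinj (a₁ := .inr q) (a₂ := .inl p) hq) (by simp)
    · simp only [g₁, g₂, if_pos h, if_neg h'] at hq
      have := hinj (a₁ := .inl q) (a₂ := .inl p) hq
      obtain rfl : q = p := by simpa using this
      exact h' h
    · simp only [g₁, g₂, if_neg h, if_pos h'] at hq
      have := hinj (a₁ := .inr q) (a₂ := .inr p) hq
      obtain rfl : q = p := by simpa using this
      exact h h'
    · simp only [g₁, g₂, if_neg h, if_neg h'] at hq
      exact absurd (hinj (a₁ := .inl q) (a₂ := .inr p) hq) (by simp)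
  · refine disjoint_of_duals _ g₁ (fy E) (fy_VX E) ?_ ?_
    · intro i; simp [hfy]
    · intro i j hij; simp [hfy, Ne.symm hij]
  · rw [codisjoint_iff, eq_top_iff, ← E.span_eq, span_le]
    rintro _ ⟨(p | p), rfl⟩
    · exact mem_sup_left (inl_mem_VX E p)
    · have hg : g₁ p ∈ VX E ⊔ span F (Set.range g₁) := mem_sup_right (subset_span ⟨p, rfl⟩)
      have hx : ∀ q, E (.inl q) ∈ VX E ⊔ span F (Set.range g₁) :=
        fun q => mem_sup_left (inl_mem_VX E q)
      by_cases h : ∀ k, A (p.1, k)
      · have hp : A p := h p.2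
        have e : E (.inr p) = g₁ p - E (.inl p) + E (.inl (p.1, p.2 + 1)) := by
          simp only [g₁, if_pos h, dv, if_pos hp]
          abel
        rw [SetLike.mem_coe, e]
        exact add_mem (sub_mem hg (hx p)) (hx (p.1, p.2 + 1))
      · by_cases hp : A p
        · have := sub_mem hg (hx p)
          simpa [g₁, h, cv, hp] using this
        · simpa [g₁, h, cv, hp] using hg
  · refine disjoint_of_duals _ g₂
      (fun q => if ∀ k, A (q.1, k) then fx E (fun p => p = q) else fx E (rightSet A q)) ?_ ?_ ?_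
    · intro q w hw
      split_ifs <;> exact fx_VY E _ w hw
    · intro q
      by_cases h : ∀ k, A (q.1, k)
      · have hq : A q := h q.2
        simp only [g₂, if_pos h, fx_cv, hq, true_and, if_true]
        exact one_ne_zero
      · simp only [g₂, if_neg h, fx_right_dv, if_true]
        split_ifs <;> simp
    · intro q p hqp
      by_cases h : ∀ k, A (q.1, k) <;> by_cases h' : ∀ k, A (p.1, k)
      · simp only [g₂, if_pos h, if_pos h', fx_cv]
        rw [if_neg (fun hh => hqp hh.2.symm)]
      · have hne : p.1 ≠ q.1 := fun hh => h' (hh ▸ h)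
        have h1 : p ≠ q := fun hh => hne (by rw [hh])
        have h2 : (p.1, p.2 + 1) ≠ q := fun hh => hne (by rw [← hh])
        simp only [g₂, if_pos h, if_neg h', fx_dv, h1, h2, if_false, sub_self, ite_self]
      · have hne : p.1 ≠ q.1 := fun hh => h (hh ▸ h')
        simp only [g₂, if_neg h, if_pos h', fx_cv]
        rw [if_neg (fun hh => hne hh.2.1)]
      · simp only [g₂, if_neg h, if_neg h', fx_right_dv]
        rw [if_neg (Ne.symm hqp)]
  · rw [codisjoint_iff, eq_top_iff, ← E.span_eq, span_le]
    have hy : ∀ q, E (.inr q) ∈ VY E ⊔ span F (Set.range g₂) :=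
      fun q => mem_sup_left (inr_mem_VY E q)
    have hg : ∀ p, g₂ p ∈ VY E ⊔ span F (Set.range g₂) :=
      fun p => mem_sup_right (subset_span ⟨p, rfl⟩)
    rintro _ ⟨(⟨a, k⟩ | p), rfl⟩
    · by_cases h : ∀ k, A (a, k)
      · have := sub_mem (hg (a, k)) (hy (a, k))
        simpa [g₂, h, cv] using this
      · obtain ⟨i, hi, hiA⟩ := (hA a).resolve_left h k
        have key : ∀ j, i + 1 ≤ j → E (.inl (a, j)) ∈ VY E ⊔ span F (Set.range g₂) := by
          intro j hj
          induction j, hj using Int.leInduction with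
          | base => simpa [g₂, h, dv, hiA] using hg (a, i)
          | succ j _ ih =>
            by_cases hj : A (a, j)
            · have e : E (.inl (a, j + 1)) = E (.inl (a, j)) + E (.inr (a, j)) - g₂ (a, j) := by
                simp only [g₂, if_neg h, dv, if_pos hj]
                abel
              rw [e]
              exact sub_mem (add_mem ih (hy (a, j))) (hg (a, j))
            · simpa [g₂, h, dv, hj] using hg (a, j)
        exact key k (by omega)
    · exact hy p

end Pool.Agent.P.MP_59a3d4_lc
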