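import Pool.Agent.P.MP_59a3d4_lc.Comp

set_option autoImplicit false

open Submodule Module Nat.Partrec

namespace Pool.Agent.P.MP_59a3d4_lc

variable {F V : Type*} [Field F] [AddCommGroup V] [Module F V] [Primcodable F] [Primcodable V]

theorem computable_ofNat_idx : Computable (Denumerable.ofNat (Idx Code)) :=
  Computable.ofNat (Idx Code)

theorem computable_eqv_idx : Computable (Denumerable.eqv (Idx Code)) :=
  Computable.encode

theorem exists_computable_basis_idx (h : IsVInfinity F V) :
    ∃ E : Basis (Idx Code) F V, Computable E := by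
  obtain ⟨e, he⟩ := exists_computable_basis h
  refine ⟨e.reindex (Denumerable.eqv (Idx Code)).symm, ?_⟩
  rw [Basis.coe_reindex, Equiv.symm_symm]
  exact he.comp computable_eqv_idx

omit [Primcodable F] in
theorem computable_reindex {E : Basis (Idx Code) F V} (hE : Computable E) :
    Computable (E.reindex (Denumerable.eqv (Idx Code))) := by
  rw [Basis.coe_reindex]
  exact hE.comp computable_ofNat_idx

theorem computable_mem_span_idx (h : IsVInfinity F V) {E : Basis (Idx Code) F V}
    (hE : Computable E) {S : Set (Idx Code)} (hS : ComputablePred (fun i => i ∈ S)) :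
    ComputablePred (fun v => v ∈ span F (E '' S)) := by
  have := computable_mem_span h _ (computable_reindex hE) (cp_comp hS computable_ofNat_idx)
  convert this using 4
  ext v
  constructor
  · rintro ⟨i, hi, rfl⟩
    refine ⟨Denumerable.eqv _ i, ?_, by simp⟩
    have : Denumerable.ofNat (Idx Code) (Denumerable.eqv _ i) = i := (Denumerable.eqv _).left_inv i
    simpa [this] using hi
  · rintro ⟨n, hn, rfl⟩
    exact ⟨_, hn, by rw [Basis.reindex_apply]; rfl⟩

theorem computable_mem_range_idx (h : IsVInfinity F V) {E : Basis (Idx Code) F V}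
    (hE : Computable E) : ComputablePred (fun v => v ∈ Set.range E) := by
  have := computable_mem_range h _ (computable_reindex hE)
  rwa [Basis.range_reindex] at this

theorem cp_range_inl : ComputablePred (fun i : Idx Code => i ∈ Set.range Sum.inl) := by
  classical
  refine Computable.computablePred ((Computable.sumCasesOn (f := fun i : Idx Code => i)
    (g := fun _ _ => true) (h := fun _ _ => false) Computable.id
    (Computable.const true).to₂ (Computable.const false).to₂).of_eq ?_)
  rintro (p | p) <;> simp

theorem cp_range_inr : ComputablePred (fun i : Idx Code => i ∈ Set.range Sum.inr) := by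
  classical
  refine Computable.computablePred ((Computable.sumCasesOn (f := fun i : Idx Code => i)
    (g := fun _ _ => false) (h := fun _ _ => true) Computable.id
    (Computable.const false).to₂ (Computable.const true).to₂).of_eq ?_)
  rintro (p | p) <;> simp

theorem computable_sub (h : IsVInfinity F V) : Computable₂ (fun u v : V => u - v) := by
  have : Computable (fun x : V × V => x.1 + (-1 : F) • x.2) :=
    h.add.comp Computable.fst (h.smul.comp (Computable.const (-1)) Computable.snd)
  exact this.of_eq fun x => by simp [sub_eq_add_neg]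

theorem computable_shift : Computable (fun p : Code × ℤ => (p.1, p.2 + 1)) :=
  Computable.fst.pair (primrec_int_succ.to_comp.comp Computable.snd)

theorem computable_cv (h : IsVInfinity F V) {E : Basis (Idx Code) F V} (hE : Computable E)
    {A : Code × ℤ → Prop} (hA : ComputablePred A) : Computable (cv E A) := by
  classical
  exact comp_ite hA (h.add.comp (hE.comp Computable.sumInl) (hE.comp Computable.sumInr))
    (hE.comp Computable.sumInr)

theorem computable_dv (h : IsVInfinity F V) {E : Basis (Idx Code) F V} (hE : Computable E)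
    {A : Code × ℤ → Prop} (hA : ComputablePred A) : Computable (dv E A) := by
  classical
  exact comp_ite hA (h.add.comp ((computable_sub h).comp (hE.comp Computable.sumInl)
    (hE.comp (Computable.sumInl.comp computable_shift))) (hE.comp Computable.sumInr))
    (hE.comp (Computable.sumInl.comp computable_shift))

theorem computable_bv (h : IsVInfinity F V) {E : Basis (Idx Code) F V} (hE : Computable E)
    {A : Code × ℤ → Prop} (hA : ComputablePred A) : Computable (bv E A) := by
  refine (Computable.sumCasesOn (f := fun i : Idx Code => i)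
    (g := fun _ p => dv E A p) (h := fun _ p => cv E A p) Computable.id
    ((computable_dv h hE hA).comp Computable.snd).to₂
    ((computable_cv h hE hA).comp Computable.snd).to₂).of_eq ?_
  rintro (p | p) <;> rfl

theorem computable_mem_bv (h : IsVInfinity F V) {E : Basis (Idx Code) F V} (hE : Computable E)
    {A : Code × ℤ → Prop} (hA : ComputablePred A) :
    ComputablePred (fun v => v ∈ Set.range (bv E A)) := by
  have := computable_mem_range_idx h
    (E := Basis.mk (linearIndependent_bv E A) (span_bv E A).ge)
    (by rw [Basis.coe_mk]; exact computable_bv h hE hA)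
  rwa [Basis.coe_mk] at this

/-- position `k` of chain `c` is active while `c` has not yet halted on input `0` -/
def act (p : Code × ℤ) : Prop := Code.evaln (Encodable.encode p.2) p.1 0 = Option.none

theorem cp_act : ComputablePred act := by
  refine PrimrecPred.computablePred ?_
  exact Primrec.eq.comp (Code.primrec_evaln.comp
    (((Primrec.encode.comp Primrec.snd).pair Primrec.fst).pair (Primrec.const 0)))
    (Primrec.const Option.none)

theorem act_of_not_dom {c : Code} (hc : ¬ (c.eval 0).Dom) (k : ℤ) : act (c, k) := by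
  by_contra h
  obtain ⟨x, hx⟩ := Option.ne_none_iff_exists'.1 h
  exact hc (Part.dom_iff_mem.2 ⟨x, Code.evaln_sound hx⟩)

theorem finite_act {c : Code} (hc : (c.eval 0).Dom) : {k : ℤ | act (c, k)}.Finite := by
  obtain ⟨x, hx⟩ := Part.dom_iff_mem.1 hc
  obtain ⟨s, hs⟩ := Code.evaln_complete.1 hx
  refine ((Set.finite_Iio s).preimage Encodable.encode_injective.injOn).subset fun k hk => ?_
  by_contra hks
  have h1 : x ∈ Code.evaln (Encodable.encode k) c 0 := Code.evaln_mono (not_lt.1 hks) hs
  have h2 : Code.evaln (Encodable.encode k) c 0 = Option.none := hk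
  rw [h2] at h1
  exact absurd h1 (by simp)

theorem exists_left {c : Code} (hc : (c.eval 0).Dom) (k : ℤ) : ∃ i < k, ¬ act (c, i) := by
  obtain ⟨i, h1, h2⟩ := (Set.Iio_infinite k).exists_notMem_finite (finite_act hc)
  exact ⟨i, h1, h2⟩

theorem exists_right {c : Code} (hc : (c.eval 0).Dom) (k : ℤ) : ∃ i > k, ¬ act (c, i) := by
  obtain ⟨i, h1, h2⟩ := (Set.Ioi_infinite k).exists_notMem_finite (finite_act hc)
  exact ⟨i, h1, h2⟩

omit [Primcodable F] [Primcodable V] in
theorem not_dom_iff_cv {E : Basis (Idx Code) F V} {B₁ B₂ : Set V}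
    (h : IsGoodSplitting (VX E) (VY E) (Set.range (bv E act)) B₁ B₂) (c : Code) :
    ¬ (c.eval 0).Dom ↔ ∃ k, cv E act (c, k) ∈ B₂ := by
  constructor
  · intro hc
    obtain ⟨j, _, _, hj⟩ := exists_cv_mem h (a := c) (t := 0) (fun i _ => act_of_not_dom hc i)
    exact ⟨j, hj⟩
  · rintro ⟨k, hk⟩ hc
    obtain ⟨s, hs, hs'⟩ := exists_right hc k
    exact cv_notMem h hs' (s - k).toNat k hs (by omega) hk

omit [Primcodable F] [Primcodable V] in
theorem not_dom_iff_dv {E : Basis (Idx Code) F V} {B₁ B₂ : Set V}
    (h : IsGoodSplitting (VX E) (VY E) (Set.range (bv E act)) B₁ B₂) (c : Code) :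
    ¬ (c.eval 0).Dom ↔ ∃ k, act (c, k) ∧ dv E act (c, k) ∈ B₁ := by
  classical
  constructor
  · intro hc
    obtain ⟨k, hk⟩ := (not_dom_iff_cv h c).1 hc
    exact ⟨k, (dv_notMem h hk).2, (dv_notMem h hk).1⟩
  · rintro ⟨k, hk, hd⟩
    refine (not_dom_iff_cv h c).2 ⟨k, ?_⟩
    have hU : cv E act (c, k) ∈ B₁ ∪ B₂ := h.1 ▸ ⟨.inr (c, k), rfl⟩
    refine hU.resolve_left fun hc => ?_
    -- both in `B₁`: their difference is a nonzero vector of `V₁`
    have h1 : cv E act (c, k) - dv E act (c, k) ∈ span F B₁ :=
      sub_mem (subset_span hc) (subset_span hd)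
    have h2 : cv E act (c, k) - dv E act (c, k) = E (.inl (c, k + 1)) := by
      simp only [cv, dv, if_pos hk]
      abel
    rw [h2] at h1
    exact E.ne_zero _ ((Submodule.disjoint_def.1 h.2.2.1.disjoint) _ (inl_mem_VX E _) h1)

theorem re_exists_int {p : Code × ℤ → Prop} (hp : REPred p) : REPred (fun c => ∃ k, p (c, k)) := by
  obtain ⟨q, hq, hpq⟩ := re_normal hp
  have h1 : Computable (fun x : Code × ℕ =>
      ((x.1, Denumerable.ofNat ℤ x.2.unpair.1), x.2.unpair.2)) :=
    (Computable.fst.pair ((Computable.ofNat ℤ).comp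
      (Computable.fst.comp (Computable.unpair.comp Computable.snd)))).pair
      (Computable.snd.comp (Computable.unpair.comp Computable.snd))
  refine (re_exists (p := fun c n => q (c, Denumerable.ofNat ℤ n.unpair.1) n.unpair.2)
    (cp_comp hq h1)).of_eq fun c => ?_
  constructor
  · rintro ⟨n, hn⟩
    exact ⟨_, (hpq _).2 ⟨_, hn⟩⟩
  · rintro ⟨k, hk⟩
    obtain ⟨m, hm⟩ := (hpq _).1 hk
    refine ⟨Nat.pair (Denumerable.eqv ℤ k) m, ?_⟩
    have : Denumerable.ofNat ℤ (Denumerable.eqv ℤ k) = k := (Denumerable.eqv ℤ).left_inv k
    simpa only [Nat.unpair_pair, this] using hm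

theorem re_comp {α β : Type*} [Primcodable α] [Primcodable β] {p : β → Prop} {f : α → β}
    (hp : REPred p) (hf : Computable f) : REPred (fun a => p (f a)) := Partrec.comp hp hf

theorem re_and {α : Type*} [Primcodable α] {p q : α → Prop} (hp : ComputablePred p)
    (hq : REPred q) : REPred (fun a => p a ∧ q a) := by
  obtain ⟨r, hr, hqr⟩ := re_normal hq
  refine (re_exists (p := fun a n => p a ∧ r a n)
    (cp_and (cp_comp hp Computable.fst) hr)).of_eq fun a => ?_
  rw [hqr]
  exact exists_and_left

theorem main (h : IsVInfinity F V) :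
    ∃ (V₁ V₂ : Submodule F V) (B : Set V), IsCompl V₁ V₂ ∧
      ComputablePred (fun v => v ∈ V₁) ∧ ComputablePred (fun v => v ∈ V₂) ∧
      IsBasisSet F B ∧ ComputablePred (fun v => v ∈ B) ∧
      (∃ B₁ B₂ : Set V, IsGoodSplitting V₁ V₂ B B₁ B₂) ∧
      ∀ B₁ B₂ : Set V, IsGoodSplitting V₁ V₂ B B₁ B₂ →
        ¬ REPred (fun v => v ∈ B₁) ∧ ¬ REPred (fun v => v ∈ B₂) := by
  obtain ⟨E, hE⟩ := exists_computable_basis_idx h
  refine ⟨VX E, VY E, Set.range (bv E act), isCompl_VX_VY E,
    computable_mem_span_idx h hE cp_range_inl, computable_mem_span_idx h hE cp_range_inr,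
    isBasisSet_bv E act, computable_mem_bv h hE cp_act, exists_good_splitting E act ?_, ?_⟩
  · intro c
    by_cases hc : (c.eval 0).Dom
    · exact Or.inr (exists_left hc)
    · exact Or.inl (act_of_not_dom hc)
  · intro B₁ B₂ hB
    constructor
    · intro hre
      refine ComputablePred.halting_problem_not_re 0 ?_
      exact (re_exists_int (re_and cp_act (re_comp hre (computable_dv h hE cp_act)))).of_eq
        fun c => (not_dom_iff_dv hB c).symm
    · intro hre
      refine ComputablePred.halting_problem_not_re 0 ?_
      exact (re_exists_int (re_comp hre (computable_cv h hE cp_act))).of_eq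
        fun c => (not_dom_iff_cv hB c).symm

end Pool.Agent.P.MP_59a3d4_lc
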