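import Pool.Agent.P.MP_59a3d4_lc.Comp

set_option autoImplicit false

open Submodule Module

namespace Pool.Agent.P.MP_59a3d4_lc

theorem primrec_testBit : Primrec₂ Nat.testBit := by
  have hpow : Primrec (fun i : ℕ => 2 ^ i) :=
    (Primrec₂.unpaired'.1 Nat.Primrec.pow).comp (Primrec.const 2) Primrec.id
  have h : PrimrecPred (fun x : ℕ × ℕ => x.1 / 2 ^ x.2 % 2 = 1) :=
    Primrec.eq.comp (Primrec.nat_mod.comp
      (Primrec.nat_div.comp Primrec.fst (hpow.comp Primrec.snd)) (Primrec.const 2))
      (Primrec.const 1)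
  exact h.decide.of_eq fun x => Nat.testBit_eq_decide_div_mod_eq.symm

theorem primrec_xor : Primrec₂ (fun a b : ℕ => a ^^^ b) := by
  have hpow : Primrec (fun i : ℕ => 2 ^ i) :=
    (Primrec₂.unpaired'.1 Nat.Primrec.pow).comp (Primrec.const 2) Primrec.id
  refine Primrec.of_graph ⟨fun x : ℕ × ℕ => 2 ^ (x.1 + x.2),
    hpow.comp (Primrec.nat_add.comp Primrec.fst Primrec.snd), fun x => ?_⟩ ?_
  · refine (Nat.xor_lt_two_pow ?_ ?_).le
    · exact lt_of_lt_of_le Nat.lt_two_pow_self (Nat.pow_le_pow_right two_pos (by omega))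
    · exact lt_of_lt_of_le Nat.lt_two_pow_self (Nat.pow_le_pow_right two_pos (by omega))
  · -- code the triple as one number
    let R : ℕ → ℕ → Prop := fun i y =>
      y.unpair.2.testBit i = (y.unpair.1.unpair.1.testBit i ^^ y.unpair.1.unpair.2.testBit i)
    have hR : PrimrecRel R := by
      have h1 : Primrec (fun x : ℕ × ℕ => x.2.unpair.1.unpair) :=
        Primrec.unpair.comp (Primrec.fst.comp (Primrec.unpair.comp Primrec.snd))
      exact Primrec.eq.comp
        (primrec_testBit.comp (Primrec.snd.comp (Primrec.unpair.comp Primrec.snd)) Primrec.fst)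
        ((Primrec.dom_bool₂ xor).comp (primrec_testBit.comp (Primrec.fst.comp h1) Primrec.fst)
          (primrec_testBit.comp (Primrec.snd.comp h1) Primrec.fst))
    have h2 := hR.forall_lt.comp (α := (ℕ × ℕ) × ℕ)
      (Primrec.nat_add.comp (Primrec.nat_add.comp (Primrec.fst.comp Primrec.fst)
        (Primrec.snd.comp Primrec.fst)) Primrec.snd)
      (Primrec₂.natPair.comp (Primrec₂.natPair.comp (Primrec.fst.comp Primrec.fst)
        (Primrec.snd.comp Primrec.fst)) Primrec.snd)
    refine h2.of_eq ?_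
    rintro ⟨⟨a, b⟩, c⟩
    simp only [R, Nat.unpair_pair]
    constructor
    · intro h
      refine Nat.eq_of_testBit_eq fun i => ?_
      rw [Nat.testBit_xor]
      by_cases hi : i < a + b + c
      · exact (h i hi).symm
      · have key : ∀ n, n ≤ a + b + c → n.testBit i = false := fun n hn =>
          Nat.testBit_lt_two_pow
            (lt_of_lt_of_le Nat.lt_two_pow_self (Nat.pow_le_pow_right two_pos (by omega)))
        rw [key a (by omega), key b (by omega), key c (by omega)]; rfl
    · rintro rfl i _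
      exact Nat.testBit_xor ..

theorem zmod2_cases (a : ZMod 2) : a = 0 ∨ a = 1 := by revert a; decide

/-- finitely supported `ZMod 2`-sequences are finite sets of naturals -/
noncomputable def suppEquiv : (ℕ →₀ ZMod 2) ≃ Finset ℕ where
  toFun v := v.support
  invFun s := Finsupp.indicator s (fun _ _ => 1)
  left_inv v := by
    ext i
    by_cases h : i ∈ v.support
    · rw [Finsupp.indicator_of_mem h]
      exact ((zmod2_cases (v i)).resolve_left (Finsupp.mem_support_iff.1 h)).symm
    · rw [Finsupp.indicator_of_notMem h, Finsupp.notMem_support_iff.1 h]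
  right_inv s := by
    ext i
    by_cases h : i ∈ s
    · simp [Finsupp.indicator_of_mem h, h]
    · simp [Finsupp.indicator_of_notMem h, h]

/-- binary coding -/
noncomputable def binEquiv : (ℕ →₀ ZMod 2) ≃ ℕ := suppEquiv.trans Finset.equivBitIndices.symm

theorem testBit_binEquiv (v : ℕ →₀ ZMod 2) (i : ℕ) :
    (binEquiv v).testBit i = decide (v i = 1) := by
  have h : Finset.equivBitIndices (binEquiv v) = v.support := by simp [binEquiv, suppEquiv]
  have h2 : i ∈ Finset.equivBitIndices (binEquiv v) ↔ (binEquiv v).testBit i := by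
    rw [Finset.equivBitIndices_apply, List.mem_toFinset, Nat.mem_bitIndices]
  rw [h, Finsupp.mem_support_iff] at h2
  rcases zmod2_cases (v i) with h3 | h3
  · rw [h3] at h2 ⊢
    simpa using h2
  · rw [h3] at h2 ⊢
    simpa using h2

theorem binEquiv_add (u v : ℕ →₀ ZMod 2) : binEquiv (u + v) = binEquiv u ^^^ binEquiv v := by
  refine Nat.eq_of_testBit_eq fun i => ?_
  rw [Nat.testBit_xor, testBit_binEquiv, testBit_binEquiv, testBit_binEquiv, Finsupp.add_apply]
  generalize u i = a
  generalize v i = b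
  revert a b
  decide

/-- all subset sums -/
noncomputable def sums (l : List (ℕ →₀ ZMod 2)) : List (ℕ →₀ ZMod 2) :=
  l.foldr (fun v S => S ++ S.map (fun w => v + w)) [0]

theorem mem_sums (l : List (ℕ →₀ ZMod 2)) (x : ℕ →₀ ZMod 2) :
    x ∈ sums l ↔ x ∈ span (ZMod 2) {y | y ∈ l} := by
  induction l generalizing x with
  | nil => simp [sums]
  | cons v l ih =>
    have e : sums (v :: l) = sums l ++ (sums l).map (fun w => v + w) := rfl
    have e2 : {y | y ∈ v :: l} = insert v {y | y ∈ l} := by ext; simp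
    rw [e, e2, mem_span_insert, List.mem_append, List.mem_map]
    simp only [ih]
    constructor
    · rintro (h | ⟨w, hw, rfl⟩)
      · exact ⟨0, x, h, by simp⟩
      · exact ⟨1, w, hw, by simp⟩
    · rintro ⟨a, z, hz, rfl⟩
      rcases zmod2_cases a with rfl | rfl
      · exact Or.inl (by simpa using hz)
      · exact Or.inr ⟨z, hz, by simp⟩

theorem exists_model : ∃ (_ : Primcodable (ZMod 2)) (_ : Primcodable (ℕ →₀ ZMod 2)),
    @IsVInfinity (ZMod 2) (ℕ →₀ ZMod 2) (@ZMod.instField 2 ⟨Nat.prime_two⟩) _ _ _ _ := by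
  classical
  letI i1 : Primcodable (ZMod 2) := inferInstanceAs (Primcodable (Fin 2))
  letI i2 : Primcodable (ℕ →₀ ZMod 2) := Primcodable.ofEquiv ℕ binEquiv
  have h1 : Primrec binEquiv := Primrec.of_equiv
  have h2 : Primrec binEquiv.symm := Primrec.of_equiv_symm
  have hadd : Primrec₂ (fun u v : ℕ →₀ ZMod 2 => u + v) :=
    (h2.comp (primrec_xor.comp (h1.comp Primrec.fst) (h1.comp Primrec.snd))).of_eq fun x => by
      rw [← binEquiv_add, Equiv.symm_apply_apply]
  have hsums : Primrec sums :=
    Primrec.list_foldr (f := fun l : List (ℕ →₀ ZMod 2) => l) (g := fun _ => [0])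
      (h := fun _ (x : (ℕ →₀ ZMod 2) × List (ℕ →₀ ZMod 2)) => x.2 ++ x.2.map (fun w => x.1 + w))
      Primrec.id (Primrec.const _)
      (Primrec.list_append.comp (Primrec.snd.comp Primrec.snd)
        (Primrec.list_map (Primrec.snd.comp Primrec.snd)
          (hadd.comp (Primrec.fst.comp (Primrec.snd.comp Primrec.fst)) Primrec.snd).to₂)).to₂
  have hmem : PrimrecRel (fun (L : List (ℕ →₀ ZMod 2)) (b : ℕ →₀ ZMod 2) => ∃ a ∈ L, a = b) :=
    PrimrecRel.exists_mem_list Primrec.eq
  refine ⟨i1, i2, (Primrec.dom_finite _).to_comp, (Primrec.dom_finite _).to_comp,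
    hadd.to_comp, ?_, ?_, ?_⟩
  · have : Primrec (fun x : ZMod 2 × (ℕ →₀ ZMod 2) => if x.1 = 0 then 0 else x.2) :=
      Primrec.ite (Primrec.eq.comp Primrec.fst (Primrec.const 0)) (Primrec.const 0) Primrec.snd
    refine this.to_comp.of_eq ?_
    rintro ⟨a, v⟩
    rcases zmod2_cases a with rfl | rfl <;> simp
  · have hd := Primrec.list_rec (f := fun l : List (ℕ →₀ ZMod 2) => l) (g := fun _ => false)
      (h := fun _ (x : (ℕ →₀ ZMod 2) × List (ℕ →₀ ZMod 2) × Bool) =>
        (x.2.2 || decide (∃ a ∈ sums x.2.1, a = x.1)))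
      Primrec.id (Primrec.const _)
      (Primrec.or.comp (Primrec.snd.comp (Primrec.snd.comp Primrec.snd))
        (hmem.comp (hsums.comp (Primrec.fst.comp (Primrec.snd.comp Primrec.snd)))
          (Primrec.fst.comp Primrec.snd)).decide).to₂
    refine Computable.computablePred (hd.to_comp.of_eq fun l => ?_)
    induction l with
    | nil => simpa using li_nil
    | cons v l ih =>
      simp only at ih ⊢
      rw [ih, li_cons, ← mem_sums]
      by_cases ha : LinearIndependent (ZMod 2) l.get <;> by_cases hb : v ∈ sums l <;> simp [ha, hb]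
  · simp

end Pool.Agent.P.MP_59a3d4_lc
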